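import Mathlib
set_option autoImplicit false
namespace Pool.Agent.Helper877.Chou

/-- property `P` of Chou, as posed -/
def PropP (G : Type) [Group G] : Prop :=
  ∀ F : Finset G, ∃ (S : Finset G) (X : Set G), F ⊆ S ∧
    (∀ x₁ ∈ X, ∀ x₂ ∈ X, x₁ ≠ x₂ → ∀ s₁ ∈ S, ∀ s₂ ∈ S, x₁ * s₁ ≠ x₂ * s₂) ∧
    (∀ g : G, ∃ s ∈ S, ∃ x ∈ X, s * x = g)

/-- `S` and `X` give exact factorisations `G = S X` and `G = X S`. -/
def TwoSidedTile (G : Type) [Group G] (S : Finset G) (X : Set G) : Prop :=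
  (∀ g : G, ∃! p : G × G, p.1 ∈ S ∧ p.2 ∈ X ∧ p.1 * p.2 = g) ∧
  (∀ g : G, ∃! p : G × G, p.1 ∈ X ∧ p.2 ∈ S ∧ p.1 * p.2 = g)



theorem exact_of_mixed (G : Type) [Group G] (S : Finset G) (hS : S.Nonempty) (X : Set G)
    (h1 : ∀ x₁ ∈ X, ∀ x₂ ∈ X, x₁ ≠ x₂ → ∀ s₁ ∈ S, ∀ s₂ ∈ S, x₁ * s₁ ≠ x₂ * s₂)
    (h2 : ∀ g : G, ∃ s ∈ S, ∃ x ∈ X, s * x = g) : TwoSidedTile G S X := by
  classical
  obtain ⟨a, ha⟩ : ∃ a : G → ℕ, ∀ g, a g = (S.filter (fun s => s⁻¹ * g ∈ X)).card := ⟨_, fun _ => rfl⟩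
  obtain ⟨b, hb⟩ : ∃ b : G → ℕ, ∀ g, b g = (S.filter (fun s => g * s⁻¹ ∈ X)).card := ⟨_, fun _ => rfl⟩
  have ha1 : ∀ g, 1 ≤ a g := by
    intro g
    rw [ha, Nat.succ_le_iff, Finset.card_pos]
    obtain ⟨s, hs, x, hx, hsx⟩ := h2 g
    refine ⟨s, Finset.mem_filter.2 ⟨hs, ?_⟩⟩
    rw [← hsx, inv_mul_cancel_left]
    exact hx
  have hb1 : ∀ g, b g ≤ 1 := by
    intro g
    rw [hb, Finset.card_le_one]
    intro s hs t ht
    rw [Finset.mem_filter] at hs ht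
    by_contra hne
    by_cases hx : g * s⁻¹ = g * t⁻¹
    · exact hne (inv_injective (mul_left_cancel hx))
    · exact h1 _ hs.2 _ ht.2 hx s hs.1 t ht.1 (by
        rw [inv_mul_cancel_right, inv_mul_cancel_right])
  have hsum : ∀ w, ∑ t ∈ S, a (w * t⁻¹) = ∑ s ∈ S, b (s⁻¹ * w) := by
    intro w
    simp only [ha, hb, Finset.card_filter]
    rw [Finset.sum_comm]
    refine Finset.sum_congr rfl fun s _ => Finset.sum_congr rfl fun t _ => ?_
    rw [mul_assoc]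
  have hA : ∀ w, ∑ t ∈ S, a (w * t⁻¹) = S.card ∧ ∑ s ∈ S, b (s⁻¹ * w) = S.card := by
    intro w
    have e1 : S.card ≤ ∑ t ∈ S, a (w * t⁻¹) := by
      calc S.card = ∑ t ∈ S, 1 := by simp
        _ ≤ _ := Finset.sum_le_sum fun t _ => ha1 _
    have e2 : ∑ s ∈ S, b (s⁻¹ * w) ≤ S.card := by
      calc ∑ s ∈ S, b (s⁻¹ * w) ≤ ∑ s ∈ S, 1 := Finset.sum_le_sum fun t _ => hb1 _
        _ = S.card := by simp
    have e3 := hsum w
    constructor <;> omega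
  obtain ⟨t0, ht0⟩ := hS
  have haeq : ∀ g, a g = 1 := by
    intro g
    have h3 : ∑ t ∈ S, 1 = ∑ t ∈ S, a (g * t0 * t⁻¹) := by
      rw [(hA (g * t0)).1]; simp
    have h4 := (Finset.sum_eq_sum_iff_of_le (fun t _ => ha1 (g * t0 * t⁻¹))).1 h3 t0 ht0
    rw [mul_inv_cancel_right] at h4
    exact h4.symm
  have hbeq : ∀ g, b g = 1 := by
    intro g
    have h3 : ∑ t ∈ S, b (t⁻¹ * (t0 * g)) = ∑ t ∈ S, 1 := by
      rw [(hA (t0 * g)).2]; simp
    have h4 := (Finset.sum_eq_sum_iff_of_le (fun t _ => hb1 (t⁻¹ * (t0 * g)))).1 h3 t0 ht0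
    rw [inv_mul_cancel_left] at h4
    exact h4
  refine ⟨?_, ?_⟩
  · intro g
    have h5 := haeq g
    rw [ha, Finset.card_eq_one] at h5
    obtain ⟨s, hs⟩ := h5
    have hs' : s ∈ S.filter (fun s => s⁻¹ * g ∈ X) := by rw [hs]; exact Finset.mem_singleton_self s
    rw [Finset.mem_filter] at hs'
    refine ⟨(s, s⁻¹ * g), ⟨hs'.1, hs'.2, mul_inv_cancel_left _ _⟩, ?_⟩
    rintro ⟨u, x⟩ ⟨hu, hx, hux⟩
    simp only at hu hx hux
    have hx2 : x = u⁻¹ * g := by rw [← hux, inv_mul_cancel_left]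
    have hu2 : u ∈ S.filter (fun s => s⁻¹ * g ∈ X) :=
      Finset.mem_filter.2 ⟨hu, by rw [← hx2]; exact hx⟩
    rw [hs, Finset.mem_singleton] at hu2
    rw [hx2, hu2]
  · intro g
    have h5 := hbeq g
    rw [hb, Finset.card_eq_one] at h5
    obtain ⟨s, hs⟩ := h5
    have hs' : s ∈ S.filter (fun s => g * s⁻¹ ∈ X) := by rw [hs]; exact Finset.mem_singleton_self s
    rw [Finset.mem_filter] at hs'
    refine ⟨(g * s⁻¹, s), ⟨hs'.2, hs'.1, inv_mul_cancel_right _ _⟩, ?_⟩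
    rintro ⟨x, u⟩ ⟨hx, hu, hux⟩
    simp only at hu hx hux
    have hx2 : x = g * u⁻¹ := by rw [← hux, mul_inv_cancel_right]
    have hu2 : u ∈ S.filter (fun s => g * s⁻¹ ∈ X) :=
      Finset.mem_filter.2 ⟨hu, by rw [← hx2]; exact hx⟩
    rw [hs, Finset.mem_singleton] at hu2
    rw [hx2, hu2]

-- TARGET:

theorem propP_iff (G : Type) [Group G] :
    PropP G ↔ ∀ F : Finset G, ∃ (S : Finset G) (X : Set G), F ⊆ S ∧ TwoSidedTile G S X := by
  classical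
  constructor
  · intro h F
    obtain ⟨S, X, hFS, h1, h2⟩ := h (insert 1 F)
    refine ⟨S, X, (Finset.subset_insert 1 F).trans hFS, ?_⟩
    exact exact_of_mixed G S ⟨1, hFS (Finset.mem_insert_self 1 F)⟩ X h1 h2
  · intro h F
    obtain ⟨S, X, hFS, h1, h2⟩ := h F
    refine ⟨S, X, hFS, ?_, ?_⟩
    · intro x₁ hx₁ x₂ hx₂ hne s₁ hs₁ s₂ hs₂ heq
      obtain ⟨p, _, hp⟩ := h2 (x₁ * s₁)
      have e1 := hp (x₁, s₁) ⟨hx₁, hs₁, rfl⟩
      have e2 := hp (x₂, s₂) ⟨hx₂, hs₂, heq.symm⟩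
      exact hne (congrArg Prod.fst (e1.trans e2.symm))
    · intro g
      obtain ⟨p, ⟨hpS, hpX, hpg⟩, _⟩ := h1 g
      exact ⟨p.1, hpS, p.2, hpX, hpg⟩

/-- double coset -/
def D_dqH (G : Type) [Group G] (H : Subgroup G) (x : G) : Set G :=
  {y | ∃ h ∈ H, ∃ k ∈ H, y = h * x * k}

theorem D_dqH_eq (G : Type) [Group G] (H : Subgroup G) (x y : G)
    (h : ∃ h ∈ H, ∃ k ∈ H, y = h * x * k) : D_dqH G H y = D_dqH G H x := by
  obtain ⟨a, ha, b, hb, rfl⟩ := h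
  ext z
  constructor
  · rintro ⟨c, hc, e, he, rfl⟩
    exact ⟨c * a, H.mul_mem hc ha, b * e, H.mul_mem hb he, by group⟩
  · rintro ⟨c, hc, e, he, rfl⟩
    exact ⟨c * a⁻¹, H.mul_mem hc (H.inv_mem ha), b⁻¹ * e, H.mul_mem (H.inv_mem hb) he, by group⟩

theorem D_mem_dqH (G : Type) [Group G] (H : Subgroup G) (x : G) : x ∈ D_dqH G H x :=
  ⟨1, H.one_mem, 1, H.one_mem, by group⟩

theorem D_mk_out_mul (G : Type) [Group G] (H : Subgroup G) (l : G ⧸ H) (h : G) (hh : h ∈ H) :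
    (QuotientGroup.mk (l.out * h) : G ⧸ H) = l := by
  rw [QuotientGroup.mk_mul_of_mem l.out hh]
  exact QuotientGroup.out_eq' l

theorem D_card_fib (G : Type) [Group G] (H : Subgroup G) (P : G → Prop)
    (hP : ∀ x h, h ∈ H → (P (x * h) ↔ P x)) :
    Nat.card {x : G // P x} = Nat.card {l : G ⧸ H // P l.out} * Nat.card H := by
  have hmem : ∀ x : G, (QuotientGroup.mk x : G ⧸ H).out⁻¹ * x ∈ H := by
    intro x
    rw [← QuotientGroup.eq]
    exact QuotientGroup.out_eq' _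
  have hPo : ∀ x : G, P x → P (QuotientGroup.mk x : G ⧸ H).out := by
    intro x hx
    rw [← hP _ _ (hmem x)]
    rw [mul_inv_cancel_left]
    exact hx
  rw [← Nat.card_prod]
  apply Nat.card_congr
  exact
    { toFun := fun x => (⟨QuotientGroup.mk x.1, hPo x.1 x.2⟩,
        ⟨(QuotientGroup.mk x.1 : G ⧸ H).out⁻¹ * x.1, hmem x.1⟩)
      invFun := fun p => ⟨p.1.1.out * p.2.1, (hP _ _ p.2.2).2 p.1.2⟩
      left_inv := by
        intro x
        apply Subtype.ext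
        show (QuotientGroup.mk x.1 : G ⧸ H).out *
          ((QuotientGroup.mk x.1 : G ⧸ H).out⁻¹ * x.1) = x.1
        rw [mul_inv_cancel_left]
      right_inv := by
        rintro ⟨⟨l, hl⟩, ⟨h, hh⟩⟩
        have e := D_mk_out_mul G H l h hh
        refine Prod.ext ?_ ?_
        · apply Subtype.ext
          exact e
        · apply Subtype.ext
          show (QuotientGroup.mk (l.out * h) : G ⧸ H).out⁻¹ * (l.out * h) = h
          rw [e, inv_mul_cancel_left] }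

theorem D_finite_dq (G : Type) [Group G] (H : Subgroup G) (hH : Finite H) (q : Set G) :
    Finite {x : G // D_dqH G H x = q} := by
  rcases isEmpty_or_nonempty {x : G // D_dqH G H x = q} with he | ⟨⟨x0, hx0⟩⟩
  · infer_instance
  · have hfin : (Set.range (fun p : H × H => (p.1 : G) * x0 * p.2)).Finite := Set.finite_range _
    have hsub : {x : G | D_dqH G H x = q} ⊆ Set.range (fun p : H × H => (p.1 : G) * x0 * p.2) := by
      intro x hx
      have h1 : x ∈ D_dqH G H x0 := by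
        rw [hx0]
        have h2 : D_dqH G H x = q := hx
        rw [← h2]
        exact D_mem_dqH G H x
      obtain ⟨h, hh, k, hk, hxe⟩ := h1
      exact ⟨(⟨h, hh⟩, ⟨k, hk⟩), hxe.symm⟩
    exact (hfin.subset hsub).to_subtype

theorem common_transversal (G : Type) [Group G] (H : Subgroup G) (hH : Finite H) :
    ∃ X : Set G, (∀ g : G, ∃! x, x ∈ X ∧ x⁻¹ * g ∈ H) ∧ (∀ g : G, ∃! x, x ∈ X ∧ g * x⁻¹ ∈ H) := by
  classical
  have hHpos : 0 < Nat.card H := Nat.card_pos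
  -- cardinalities
  have hc1 : ∀ q : Set G, Nat.card {x : G // D_dqH G H x = q} =
      Nat.card {l : G ⧸ H // D_dqH G H l.out = q} * Nat.card H := by
    intro q
    apply D_card_fib G H (fun x => D_dqH G H x = q)
    intro x h hh
    have : D_dqH G H (x * h) = D_dqH G H x := D_dqH_eq G H x (x * h) ⟨1, H.one_mem, h, hh, by group⟩
    show D_dqH G H (x * h) = q ↔ D_dqH G H x = q
    rw [this]
  have hc2 : ∀ q : Set G, Nat.card {x : G // D_dqH G H x⁻¹ = q} =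
      Nat.card {l : G ⧸ H // D_dqH G H (l.out)⁻¹ = q} * Nat.card H := by
    intro q
    apply D_card_fib G H (fun x => D_dqH G H x⁻¹ = q)
    intro x h hh
    have : D_dqH G H (x * h)⁻¹ = D_dqH G H x⁻¹ :=
      D_dqH_eq G H x⁻¹ (x * h)⁻¹ ⟨h⁻¹, H.inv_mem hh, 1, H.one_mem, by group⟩
    show D_dqH G H (x * h)⁻¹ = q ↔ D_dqH G H x⁻¹ = q
    rw [this]
  have hc3 : ∀ q : Set G, Nat.card {x : G // D_dqH G H x = q} =
      Nat.card {x : G // D_dqH G H x⁻¹ = q} := by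
    intro q
    apply Nat.card_congr
    exact
      { toFun := fun x => ⟨x.1⁻¹, by rw [inv_inv]; exact x.2⟩
        invFun := fun x => ⟨x.1⁻¹, x.2⟩
        left_inv := fun x => Subtype.ext (inv_inv _)
        right_inv := fun x => Subtype.ext (inv_inv _) }
  have hcard : ∀ q : Set G, Nat.card {l : G ⧸ H // D_dqH G H l.out = q} =
      Nat.card {l : G ⧸ H // D_dqH G H (l.out)⁻¹ = q} := by
    intro q
    have h := hc3 q
    rw [hc1 q, hc2 q] at h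
    exact Nat.eq_of_mul_eq_mul_right hHpos h
  have hf1 : ∀ q : Set G, Finite {l : G ⧸ H // D_dqH G H l.out = q} := by
    intro q
    have := D_finite_dq G H hH q
    apply Finite.of_injective (fun l : {l : G ⧸ H // D_dqH G H l.out = q} =>
      (⟨l.1.out, l.2⟩ : {x : G // D_dqH G H x = q}))
    intro a b hab
    have h1 : a.1.out = b.1.out := congrArg Subtype.val hab
    apply Subtype.ext
    rw [← QuotientGroup.out_eq' a.1, ← QuotientGroup.out_eq' b.1]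
    exact congrArg _ h1
  have hf2 : ∀ q : Set G, Finite {l : G ⧸ H // D_dqH G H (l.out)⁻¹ = q} := by
    intro q
    have := D_finite_dq G H hH q
    apply Finite.of_injective (fun l : {l : G ⧸ H // D_dqH G H (l.out)⁻¹ = q} =>
      (⟨(l.1.out)⁻¹, l.2⟩ : {x : G // D_dqH G H x = q}))
    intro a b hab
    have h1 : (a.1.out)⁻¹ = (b.1.out)⁻¹ := congrArg Subtype.val hab
    have h2 : a.1.out = b.1.out := inv_injective h1
    apply Subtype.ext
    rw [← QuotientGroup.out_eq' a.1, ← QuotientGroup.out_eq' b.1]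
    exact congrArg _ h2
  have hE : ∀ q : Set G, Nonempty ({l : G ⧸ H // D_dqH G H l.out = q} ≃
      {l : G ⧸ H // D_dqH G H (l.out)⁻¹ = q}) := by
    intro q
    have := hf1 q
    have := hf2 q
    exact Finite.card_eq.1 (hcard q)
  obtain ⟨E⟩ : Nonempty (∀ q : Set G, ({l : G ⧸ H // D_dqH G H l.out = q} ≃
      {l : G ⧸ H // D_dqH G H (l.out)⁻¹ = q})) := ⟨fun q => Classical.choice (hE q)⟩
  obtain ⟨φ, hφ⟩ : ∃ φ : (G ⧸ H) ≃ (G ⧸ H), ∀ l, D_dqH G H (φ l).out⁻¹ = D_dqH G H l.out := by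
    refine ⟨(Equiv.sigmaFiberEquiv (fun l : G ⧸ H => D_dqH G H l.out)).symm.trans
      ((Equiv.sigmaCongrRight E).trans
        (Equiv.sigmaFiberEquiv (fun l : G ⧸ H => D_dqH G H (l.out)⁻¹))), ?_⟩
    intro l
    exact (E (D_dqH G H l.out) ⟨l, rfl⟩).2
  have hx : ∀ l : G ⧸ H, ∃ x : G, (QuotientGroup.mk x : G ⧸ H) = l ∧
      (QuotientGroup.mk x⁻¹ : G ⧸ H) = φ l := by
    intro l
    have h1 : (φ l).out⁻¹ ∈ D_dqH G H l.out := by
      rw [← hφ l]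
      exact D_mem_dqH G H _
    obtain ⟨h, hh, k, hk, he⟩ := h1
    refine ⟨l.out * k, D_mk_out_mul G H l k hk, ?_⟩
    have h2 : (l.out * k)⁻¹ = (φ l).out * h := by
      have h3 : (φ l).out = (h * l.out * k)⁻¹ := by rw [← he, inv_inv]
      rw [h3]
      group
    rw [h2]
    exact D_mk_out_mul G H (φ l) h hh
  choose xf hx1 hx2 using hx
  refine ⟨Set.range xf, ?_, ?_⟩
  · intro g
    refine ⟨xf (QuotientGroup.mk g), ⟨⟨_, rfl⟩, ?_⟩, ?_⟩
    · rw [← QuotientGroup.eq]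
      exact hx1 _
    · rintro y ⟨⟨l, rfl⟩, hy⟩
      rw [← QuotientGroup.eq, hx1] at hy
      rw [hy]
  · intro g
    refine ⟨xf (φ.symm (QuotientGroup.mk g⁻¹)), ⟨⟨_, rfl⟩, ?_⟩, ?_⟩
    · have h1 : (QuotientGroup.mk g⁻¹ : G ⧸ H) =
          QuotientGroup.mk (xf (φ.symm (QuotientGroup.mk g⁻¹)))⁻¹ := by
        rw [hx2, Equiv.apply_symm_apply]
      have h2 := QuotientGroup.eq.1 h1
      rwa [inv_inv] at h2
    · rintro y ⟨⟨l, rfl⟩, hy⟩
      have h1 : (QuotientGroup.mk g⁻¹ : G ⧸ H) = QuotientGroup.mk (xf l)⁻¹ := by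
        rw [QuotientGroup.eq, inv_inv]
        exact hy
      rw [hx2] at h1
      rw [h1, Equiv.symm_apply_apply]

-- TARGET:

theorem tile_of_finite_subgroup (G : Type) [Group G] (H : Subgroup G) (hH : Finite H) (F : Finset G)
    (hF : ∀ f ∈ F, f ∈ H) :
    ∃ (S : Finset G) (X : Set G), F ⊆ S ∧
    (∀ x₁ ∈ X, ∀ x₂ ∈ X, x₁ ≠ x₂ → ∀ s₁ ∈ S, ∀ s₂ ∈ S, x₁ * s₁ ≠ x₂ * s₂) ∧
    (∀ g : G, ∃ s ∈ S, ∃ x ∈ X, s * x = g) := by
  classical
  obtain ⟨X, hX1, hX2⟩ := common_transversal G H hH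
  have hfin : (H : Set G).Finite := Set.toFinite (H : Set G)
  refine ⟨hfin.toFinset, X, ?_, ?_, ?_⟩
  · intro f hf
    rw [Set.Finite.mem_toFinset]
    exact hF f hf
  · intro x₁ h₁ x₂ h₂ hne s₁ hs₁ s₂ hs₂ heq
    rw [Set.Finite.mem_toFinset] at hs₁ hs₂
    have hs₁' : s₁ ∈ H := hs₁
    have hs₂' : s₂ ∈ H := hs₂
    apply hne
    refine (hX1 (x₁ * s₁)).unique ⟨h₁, ?_⟩ ⟨h₂, ?_⟩
    · rw [inv_mul_cancel_left]; exact hs₁'
    · rw [heq, inv_mul_cancel_left]; exact hs₂'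
  · intro g
    obtain ⟨x, ⟨hx, hxg⟩, -⟩ := hX2 g
    refine ⟨g * x⁻¹, ?_, x, hx, by group⟩
    rw [Set.Finite.mem_toFinset]
    exact hxg

theorem lift_tile (G Q : Type) [Group G] [Group Q] (π : G →* Q) (hπ : Function.Surjective π) (F : Finset G)
    (hF : Set.InjOn π (F : Set G))
    (h : ∀ F' : Finset Q, (∀ q ∈ F', ∃ f ∈ F, π f = q) → ∃ (S : Finset Q) (X : Set Q), F' ⊆ S ∧
      (∀ x₁ ∈ X, ∀ x₂ ∈ X, x₁ ≠ x₂ → ∀ s₁ ∈ S, ∀ s₂ ∈ S, x₁ * s₁ ≠ x₂ * s₂) ∧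
      (∀ g : Q, ∃ s ∈ S, ∃ x ∈ X, s * x = g)) :
    ∃ (S : Finset G) (X : Set G), F ⊆ S ∧
    (∀ x₁ ∈ X, ∀ x₂ ∈ X, x₁ ≠ x₂ → ∀ s₁ ∈ S, ∀ s₂ ∈ S, x₁ * s₁ ≠ x₂ * s₂) ∧
    (∀ g : G, ∃ s ∈ S, ∃ x ∈ X, s * x = g) := by
  classical
  obtain ⟨S', X', hFS, hd, hc⟩ := h (F.image π) (by
    intro q hq
    obtain ⟨f, hf, hfq⟩ := Finset.mem_image.1 hq
    exact ⟨f, hf, hfq⟩)
  have hsec : ∀ q : Q, ∃ g : G, π g = q ∧ ((∃ f ∈ F, π f = q) → g ∈ F) := by
    intro q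
    by_cases hq : ∃ f ∈ F, π f = q
    · obtain ⟨f, hf, hfq⟩ := hq
      exact ⟨f, hfq, fun _ => hf⟩
    · obtain ⟨g, hg⟩ := hπ q
      exact ⟨g, hg, fun h' => absurd h' hq⟩
  choose σ hσ1 hσ2 using hsec
  have hσF : ∀ f ∈ F, σ (π f) = f := by
    intro f hf
    have h1 : σ (π f) ∈ F := hσ2 (π f) ⟨f, hf, rfl⟩
    exact hF h1 hf (hσ1 (π f))
  refine ⟨S'.image σ, π ⁻¹' X', ?_, ?_, ?_⟩
  · intro f hf
    exact Finset.mem_image.2 ⟨π f, hFS (Finset.mem_image.2 ⟨f, hf, rfl⟩), hσF f hf⟩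
  · intro x₁ hx₁ x₂ hx₂ hne s₁ hs₁ s₂ hs₂ he
    obtain ⟨a, ha, rfl⟩ := Finset.mem_image.1 hs₁
    obtain ⟨b, hb, rfl⟩ := Finset.mem_image.1 hs₂
    have he' : π x₁ * a = π x₂ * b := by
      have := congrArg π he
      rwa [map_mul, map_mul, hσ1, hσ1] at this
    by_cases e : π x₁ = π x₂
    · rw [e] at he'
      have hab : a = b := mul_left_cancel he'
      subst hab
      exact hne (mul_right_cancel he)
    · exact hd (π x₁) hx₁ (π x₂) hx₂ e a ha b hb he'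
  · intro g
    obtain ⟨s', hs', x', hx', hsx⟩ := hc (π g)
    refine ⟨σ s', Finset.mem_image.2 ⟨s', hs', rfl⟩, (σ s')⁻¹ * g, ?_, by group⟩
    show π ((σ s')⁻¹ * g) ∈ X'
    rw [map_mul, map_inv, hσ1, ← hsx, inv_mul_cancel_left]
    exact hx'

-- TARGET:

theorem propP_of_residually (G : Type) [Group G]
    (h : ∀ F : Finset G, ∃ (Q : Type) (_ : Group Q) (π : G →* Q), Function.Surjective π ∧
      Set.InjOn π (F : Set G) ∧ PropP Q) : PropP G := by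
  intro F
  obtain ⟨Q, hQ, π, h1, h2, h3⟩ := h F
  exact lift_tile G Q π h1 F h2 (fun F' _ => h3 F')

-- TARGET:

theorem propP_of_finite_in_quotient (G : Type) [Group G]
    (h : ∀ F : Finset G, ∃ N : Subgroup G, N.Normal ∧
      (∀ f₁ ∈ F, ∀ f₂ ∈ F, f₁⁻¹ * f₂ ∈ N → f₁ = f₂) ∧
      ∃ K : Subgroup G, N ≤ K ∧ (∀ f ∈ F, f ∈ K) ∧ N.relIndex K ≠ 0) : PropP G := by
  intro F
  obtain ⟨N, hN, hinj, K, hNK, hFK, hrel⟩ := h F
  haveI := hN
  have hfin : Finite (K.map (QuotientGroup.mk' N)) := by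
    haveI : (N.subgroupOf K).FiniteIndex := ⟨hrel⟩
    haveI : Finite (K ⧸ (N.subgroupOf K)) := Subgroup.finite_quotient_of_finiteIndex
    let f : K ⧸ (N.subgroupOf K) → G ⧸ N := fun x =>
      Quotient.liftOn' x (fun k : K => ((k : G) : G ⧸ N)) (by
        intro a b hab
        have h1 := QuotientGroup.leftRel_apply.mp hab
        rw [Subgroup.mem_subgroupOf] at h1
        exact QuotientGroup.eq.mpr h1)
    have h2 : Set.Finite ((K.map (QuotientGroup.mk' N) : Subgroup (G ⧸ N)) : Set (G ⧸ N)) := by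
      apply Set.Finite.subset (Set.finite_range f)
      rintro _ ⟨k, hk, rfl⟩
      exact ⟨((⟨k, hk⟩ : K) : K ⧸ (N.subgroupOf K)), rfl⟩
    exact h2.to_subtype
  apply lift_tile G (G ⧸ N) (QuotientGroup.mk' N) (QuotientGroup.mk'_surjective N) F
  · intro a ha b hb hab
    exact hinj a ha b hb (QuotientGroup.eq.mp hab)
  · intro F' hF'
    apply tile_of_finite_subgroup (G ⧸ N) (K.map (QuotientGroup.mk' N)) hfin F'
    intro q hq
    obtain ⟨f, hf, e⟩ := hF' q hq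
    exact ⟨f, hFK f hf, e⟩

-- TARGET:

theorem propP_residually_finite (G : Type) [Group G]
    (h : ∀ g : G, g ≠ 1 → ∃ N : Subgroup G, N.Normal ∧ N.FiniteIndex ∧ g ∉ N) : PropP G := by
  classical
  have h' : ∀ g : G, ∃ N : Subgroup G, N.Normal ∧ N.FiniteIndex ∧ (g ≠ 1 → g ∉ N) := by
    intro g
    by_cases hg : g = 1
    · exact ⟨⊤, inferInstance, inferInstance, fun hn => absurd hg hn⟩
    · obtain ⟨N, h1, h2, h3⟩ := h g hg
      exact ⟨N, h1, h2, fun _ => h3⟩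
  choose M hM1 hM2 hM3 using h'
  apply propP_of_finite_in_quotient
  intro F
  refine ⟨⨅ p : (F ×ˢ F : Finset (G × G)), M (p.1.1⁻¹ * p.1.2), ?_, ?_, ⊤, le_top, fun f _ => trivial, ?_⟩
  · exact Subgroup.normal_iInf_normal (fun p => hM1 _)
  · intro f₁ hf₁ f₂ hf₂ hf
    by_contra hne
    have h1 := Subgroup.mem_iInf.1 hf ⟨(f₁, f₂), Finset.mem_product.2 ⟨hf₁, hf₂⟩⟩
    exact hM3 (f₁⁻¹ * f₂) (fun h0 => hne (inv_mul_eq_one.1 h0)) h1
  · rw [Subgroup.relIndex_top_right]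
    have : (⨅ p : (F ×ˢ F : Finset (G × G)), M (p.1.1⁻¹ * p.1.2)).FiniteIndex :=
      Subgroup.finiteIndex_iInf (fun p => hM2 _)
    exact this.index_ne_zero

-- TARGET:

theorem propP_locally_finite (G : Type) [Group G]
    (h : ∀ F : Finset G, Finite (Subgroup.closure (F : Set G))) : PropP G := by
  intro F
  exact tile_of_finite_subgroup G (Subgroup.closure (F : Set G)) (h F) F
    (fun f hf => Subgroup.subset_closure (Finset.mem_coe.mpr hf))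

-- TARGET:

theorem L_propP_comm_rf (K : Type) [CommGroup K] [Group.FG K] : Group.ResiduallyFinite K := by
  refine Group.residuallyFinite_of_forall_exists_finite_monoidHom.{0} fun g hg => ?_
  obtain ⟨ι, j, _, _, p, hp, e, ⟨φ⟩⟩ := CommGroup.equiv_free_prod_prod_multiplicative_zmod K
  have h1 : φ g ≠ 1 := fun h => hg (by simpa using h)
  by_cases h2 : (φ g).1 = 1
  · have h3 : (φ g).2 ≠ 1 := fun h => h1 (Prod.ext h2 h)
    obtain ⟨i, hi⟩ := Function.ne_iff.1 h3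
    haveI : NeZero (p i ^ e i) := ⟨pow_ne_zero _ (hp i).ne_zero⟩
    refine ⟨Multiplicative (ZMod (p i ^ e i)), inferInstance, inferInstance,
      ((Pi.evalMonoidHom _ i).comp (MonoidHom.snd _ _)).comp φ.toMonoidHom, ?_⟩
    exact hi
  · obtain ⟨i, hi⟩ := Function.ne_iff.1 h2
    obtain ⟨n, hn⟩ : ∃ n : ℤ, n = Multiplicative.toAdd ((φ g).1 i) := ⟨_, rfl⟩
    have hn0 : n ≠ 0 := by
      intro h
      apply hi
      rw [hn] at h
      exact Multiplicative.toAdd.injective h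
    refine ⟨Multiplicative (ZMod (n.natAbs + 1)), inferInstance, inferInstance,
      ((AddMonoidHom.toMultiplicative (Int.castAddHom (ZMod (n.natAbs + 1)))).comp
        ((Pi.evalMonoidHom _ i).comp (MonoidHom.fst _ _))).comp φ.toMonoidHom, ?_⟩
    intro h
    have h3 : ((n : ℤ) : ZMod (n.natAbs + 1)) = 0 := by
      rw [hn] at h ⊢
      exact Multiplicative.ofAdd.injective h
    rw [ZMod.intCast_zmod_eq_zero_iff_dvd] at h3
    have h4 := Int.natAbs_dvd_natAbs.2 h3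
    rw [Int.natAbs_natCast] at h4
    have h5 := Nat.le_of_dvd (Int.natAbs_pos.2 hn0) h4
    omega

theorem propP_comm (G : Type) [CommGroup G] : PropP G := by
  classical
  apply propP_of_finite_in_quotient
  intro F
  obtain ⟨K, hK⟩ : ∃ K : Subgroup G, K = Subgroup.closure (F : Set G) := ⟨_, rfl⟩
  haveI : Group.FG K := by rw [hK]; infer_instance
  haveI := L_propP_comm_rf K
  have hFK : ∀ f ∈ F, f ∈ K := fun f hf => by rw [hK]; exact Subgroup.subset_closure hf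
  have h1 : ∀ g : K, ∃ H : Subgroup K, H.FiniteIndex ∧ (g ≠ 1 → g ∉ H) := by
    intro g
    by_cases hg : g = 1
    · exact ⟨⊤, inferInstance, fun h => absurd hg h⟩
    · obtain ⟨H, hH, hg'⟩ := Group.residuallyFinite_iff_exists_finiteIndex.1 ‹_› g hg
      exact ⟨H, hH, fun _ => hg'⟩
  choose H hH hgH using h1
  obtain ⟨N0, hN0⟩ : ∃ N0 : Subgroup K, N0 = ⨅ q : F × F,
      H (⟨(q.1 : G), hFK _ q.1.2⟩⁻¹ * ⟨(q.2 : G), hFK _ q.2.2⟩) := ⟨_, rfl⟩
  have hN0f : N0.FiniteIndex := by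
    rw [hN0]
    exact Subgroup.finiteIndex_iInf fun q => hH _
  refine ⟨N0.map K.subtype, inferInstance, ?_, K, ?_, hFK, ?_⟩
  · intro f₁ h₁ f₂ h₂ hf
    obtain ⟨x, hx, hxe⟩ := hf
    have hx' : x = ⟨f₁, hFK _ h₁⟩⁻¹ * ⟨f₂, hFK _ h₂⟩ := Subtype.ext hxe
    by_contra hne
    have h3 : x ∈ H (⟨f₁, hFK _ h₁⟩⁻¹ * ⟨f₂, hFK _ h₂⟩) := by
      have hx2 : x ∈ N0 := hx
      rw [hN0, Subgroup.mem_iInf] at hx2
      exact hx2 (⟨f₁, h₁⟩, ⟨f₂, h₂⟩)
    rw [hx'] at h3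
    refine hgH _ ?_ h3
    intro h4
    apply hne
    have := congrArg (fun z : K => (z : G)) h4
    exact (inv_mul_eq_one.1 this)
  · exact Subgroup.map_subtype_le N0
  · have : (N0.map K.subtype).relIndex K = N0.index := by
      unfold Subgroup.relIndex Subgroup.subgroupOf
      rw [Subgroup.comap_map_eq_self_of_injective (Subgroup.subtype_injective K)]
    rw [this]
    exact hN0f.index_ne_zero

theorem tile_restrict (G : Type) [Group G] (H : Subgroup G) (S : Finset H) (X : Set G)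
    (h : TwoSidedTile G (S.map ⟨Subtype.val, Subtype.val_injective⟩) X) :
    TwoSidedTile H S {x : H | (x : G) ∈ X} := by
  obtain ⟨h1, h2⟩ := h
  constructor
  · intro g
    obtain ⟨⟨s, x⟩, ⟨hs, hx, hsx⟩, huniq⟩ := h1 (g : G)
    simp only [Finset.mem_map, Function.Embedding.coeFn_mk] at hs hx hsx
    obtain ⟨s', hs', rfl⟩ := hs
    have hxH : x ∈ H := by
      have : x = ((s'⁻¹ * g : H) : G) := by
        rw [Subgroup.coe_mul, Subgroup.coe_inv, ← hsx]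
        group
      rw [this]
      exact (s'⁻¹ * g).2
    refine ⟨(s', ⟨x, hxH⟩), ⟨hs', hx, Subtype.ext hsx⟩, ?_⟩
    rintro ⟨s2, x2⟩ ⟨hs2, hx2, hsx2⟩
    have := huniq ((s2 : G), (x2 : G)) ⟨by
      simp only [Finset.mem_map, Function.Embedding.coeFn_mk]
      exact ⟨s2, hs2, rfl⟩, hx2, by
      simp only at hsx2 ⊢
      rw [← hsx2]; rfl⟩
    simp only [Prod.mk.injEq] at this ⊢
    exact ⟨Subtype.ext this.1, Subtype.ext this.2⟩
  · intro g
    obtain ⟨⟨x, s⟩, ⟨hx, hs, hsx⟩, huniq⟩ := h2 (g : G)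
    simp only [Finset.mem_map, Function.Embedding.coeFn_mk] at hs hx hsx
    obtain ⟨s', hs', rfl⟩ := hs
    have hxH : x ∈ H := by
      have : x = ((g * s'⁻¹ : H) : G) := by
        rw [Subgroup.coe_mul, Subgroup.coe_inv, ← hsx]
        group
      rw [this]
      exact (g * s'⁻¹).2
    refine ⟨(⟨x, hxH⟩, s'), ⟨hx, hs', Subtype.ext hsx⟩, ?_⟩
    rintro ⟨x2, s2⟩ ⟨hx2, hs2, hsx2⟩
    have := huniq ((x2 : G), (s2 : G)) ⟨hx2, by
      simp only [Finset.mem_map, Function.Embedding.coeFn_mk]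
      exact ⟨s2, hs2, rfl⟩, by
      simp only at hsx2 ⊢
      rw [← hsx2]; rfl⟩
    simp only [Prod.mk.injEq] at this ⊢
    exact ⟨Subtype.ext this.1, Subtype.ext this.2⟩

end Pool.Agent.Helper877.Chou
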